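import Mathlib
import Pool.Agent.TH937.NL.Comp

/-!
# No invariant line fields for `A (B (z) ^ n)`, for almost all exponents `n`
-/

set_option autoImplicit false

open MeasureTheory Set Filter Topology

namespace Pool.Agent.Results.MP_70a088_an.AlmostAllExponents

/-- The filled Julia set of a polynomial map: the points whose orbit is bounded. -/
def filledJulia (f : ℂ → ℂ) : Set ℂ := {z | Bornology.IsBounded (Set.range fun k : ℕ => f^[k] z)}

/-- The Julia set of a polynomial map: the boundary of the filled Julia set. -/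
def julia (f : ℂ → ℂ) : Set ℂ := frontier (filledJulia f)

/-- `μ` is an invariant line field of `f` supported on `X`: a measurable function with
`μ (f z) · conj (f' z) / f' z = μ z` for almost every `z`, with `|μ| = 1` on the set `X` of positive
area and `μ = 0` off `X`. -/
structure InvariantLineField (f μ : ℂ → ℂ) (X : Set ℂ) : Prop where
  measurable : Measurable μ
  invariant : ∀ᵐ z ∂(volume : Measure ℂ),
    μ (f z) * (starRingEnd ℂ) (deriv f z) / deriv f z = μ z
  positive : 0 < volume X
  unimodular : ∀ z ∈ X, ‖μ z‖ = 1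
  zero_off : ∀ z ∉ X, μ z = 0

/-- Let `A`, `B` be nonconstant complex polynomials such that `B (A 0)` is not a root of unity, or
such that both have degree one. There are `K` and a set `S` of natural numbers with at most `K`
members in every window `[N, N + L)` with `N` large (depending on `L`) such that for all `n` outside
`S` the Julia set of the polynomial `z ↦ A (B (z) ^ n)` has area zero, so that this polynomial has no
invariant line field supported on its Julia set. -/
theorem result (A B : Polynomial ℂ) (hA : 1 ≤ A.natDegree) (hB : 1 ≤ B.natDegree)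
    (h : (∀ k : ℕ, 0 < k → (B.eval (A.eval 0)) ^ k ≠ 1) ∨ (A.natDegree = 1 ∧ B.natDegree = 1)) :
    ∃ K : ℕ, ∃ S : Set ℕ,
      (∀ L : ℕ, ∃ N₀ : ℕ, ∀ N : ℕ, N₀ ≤ N → (S ∩ Set.Ico N (N + L)).ncard ≤ K) ∧
      ∀ n : ℕ, n ∉ S →
        volume (julia fun z : ℂ => A.eval (B.eval z ^ n)) = 0 ∧
        ¬ ∃ (μ : ℂ → ℂ) (X : Set ℂ),
          InvariantLineField (fun z : ℂ => A.eval (B.eval z ^ n)) μ X ∧
            X ⊆ julia fun z : ℂ => A.eval (B.eval z ^ n) := by
  obtain ⟨K, S, hS, hn⟩ := Pool.Agent.TH937.NL.comp_area_zero hA hB h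
  refine ⟨K, S, hS, fun n hnS => ?_⟩
  have h0 : volume (julia fun z : ℂ => A.eval (B.eval z ^ n)) = 0 := (hn n hnS).2
  refine ⟨h0, ?_⟩
  rintro ⟨μ, X, hμ, hX⟩
  exact hμ.positive.ne' (measure_mono_null hX h0)

end Pool.Agent.Results.MP_70a088_an.AlmostAllExponents
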