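import Mathlib
import Pool.Prelude.Def_F_c31e40fa
import Pool.Agent.TH279.MD.Final

/-!
# The area of the Julia set of a parameter in a non-hyperbolic component

Let `f_c (z) = z ^ d + c`, `d ≥ 2`, and let `M_d` be the Multibrot set. In a non-hyperbolic component of the interior
of `M_d` the filled Julia set `K_c` equals the Julia set and carries an invariant line field, so it has positive
area. We show that the area of `K_c` is at least `κ (r |P_n'(c)|) ^ 2` for all `n ≥ 1`, where `P_n (c) = f_c^n (0)`,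
`r` is the distance of `c` to the boundary of `M_d` and `κ > 0` is an absolute constant.
-/

set_option autoImplicit false

open Set Filter Metric MeasureTheory

namespace Pool.Agent.Results.MP_70a088_an.QueerArea

open Pool.Agent.H713R2 Pool.Agent.H712R2 Pool.Agent.H713R2.AR Pool.Agent.H548R3.MB Pool.Agent.TH279.MD

/-- **Area of filled Julia sets inside the Multibrot set.** -/
theorem result : ∃ κ : ℝ, 0 < κ ∧ ∀ d : ℕ, 2 ≤ d → ∀ (c₀ : ℂ) (r : ℝ), 0 < r →
    (∀ c ∈ ball c₀ r, ¬ Tendsto (fun k => (fun z : ℂ => z ^ d + c)^[k] 0) atTop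
      (Bornology.cobounded ℂ)) →
    ∀ n : ℕ, 1 ≤ n →
      κ * (r * ‖deriv (fun c : ℂ => (fun z : ℂ => z ^ d + c)^[n] 0) c₀‖) ^ 2 ≤
        (volume {z : ℂ | ¬ Tendsto (fun k => (fun z : ℂ => z ^ d + c₀)^[k] z) atTop
          (Bornology.cobounded ℂ)}).toReal := by
  obtain ⟨C, hC, H⟩ := vol_sqrt
  refine ⟨(Real.pi / (2 * C)) ^ 2, by positivity, ?_⟩
  intro d hd c₀ r hr hM n hn
  have hpi := Real.pi_pos
  set γ : ℂ → ℂ := fun t => c₀ + r * t with hγ
  have hγd : DifferentiableOn ℂ γ (ball 0 1) := by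
    rw [hγ]
    fun_prop
  have hγM : ∀ t ∈ ball (0 : ℂ) 1, γ t ∈ N62a1eb23.multibrotSet d := by
    intro t ht
    apply hM
    rw [mem_ball_zero_iff] at ht
    rw [mem_ball, dist_eq_norm, hγ]
    have : c₀ + r * t - c₀ = r * t := by ring
    rw [this, norm_mul, Complex.norm_real, Real.norm_eq_abs, abs_of_pos hr]
    nlinarith [norm_nonneg t]
  have h1 := gen_ineq hd hγd hγM hn
  have hγ0 : γ 0 = c₀ := by rw [hγ]; simp
  rw [hγ0] at h1
  have hder : deriv (fun t => P d n (γ t)) 0 =
      r * deriv (fun c : ℂ => (fun z : ℂ => z ^ d + c)^[n] 0) c₀ := by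
    have hdiff : DifferentiableAt ℂ (P d n) c₀ := by
      have : ∀ m, Differentiable ℂ (fun c : ℂ => (fun z : ℂ => z ^ d + c)^[m] 0) := by
        intro m
        induction m with
        | zero => simp
        | succ m ih =>
          have h5 : (fun c : ℂ => (fun z : ℂ => z ^ d + c)^[m + 1] 0) =
              fun c : ℂ => ((fun z : ℂ => z ^ d + c)^[m] 0) ^ d + c := by
            funext c
            rw [Function.iterate_succ_apply']
          rw [h5]
          fun_prop
      exact this n c₀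
    have h2 : HasDerivAt γ (r : ℂ) 0 := by
      have h3 : HasDerivAt (fun t : ℂ => (r : ℂ) * t) ((r : ℂ) * 1) 0 :=
        (hasDerivAt_id (0 : ℂ)).const_mul (r : ℂ)
      rw [mul_one] at h3
      exact h3.const_add c₀
    have h4 : HasDerivAt (P d n) (deriv (P d n) c₀) (γ 0) := by
      rw [hγ0]
      exact hdiff.hasDerivAt
    have h5 := (h4.comp (0 : ℂ) h2).deriv
    have h6 : (P d n ∘ γ) = fun t => P d n (γ t) := rfl
    rw [h6] at h5
    rw [h5, mul_comm]
    rfl
  have hc2 : ‖c₀‖ ≤ 2 := norm_le_two hd (by have := hγM 0 (mem_ball_self one_pos); rwa [hγ0] at this)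
  set A : ℝ := (volume (KK d c₀)).toReal with hA
  have hKK : KK d c₀ = ⋂ j, AR.EE d c₀ j := (iInter_EE hd hc2).symm
  have hKm : MeasurableSet (KK d c₀) := by
    rw [hKK]
    exact MeasurableSet.iInter fun j => (isCompact_EE hd hc2 j).isClosed.measurableSet
  have hKf : volume (KK d c₀) ≠ ⊤ := by
    refine ne_top_of_le_ne_top (isCompact_EE hd hc2 0).measure_lt_top.ne (measure_mono ?_)
    rw [hKK]
    exact iInter_subset _ 0
  have h7 := H (P d n c₀) (KK d c₀) A hKm ENNReal.toReal_nonneg (by rw [hA, ENNReal.ofReal_toReal hKf])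
  have h8 : (volume {u : ℂ | u ^ 2 + P d n c₀ ∈ KK d c₀}).toReal ≤ C * √A :=
    ENNReal.toReal_le_of_le_ofReal (by positivity) h7
  have h9 : r * ‖deriv (fun c : ℂ => (fun z : ℂ => z ^ d + c)^[n] 0) c₀‖ ≤ 2 / Real.pi * (C * √A) := by
    rw [hder, norm_mul, Complex.norm_real, Real.norm_eq_abs, abs_of_pos hr] at h1
    exact h1.trans (mul_le_mul_of_nonneg_left h8 (by positivity))
  have h10 : Real.pi / (2 * C) * (r * ‖deriv (fun c : ℂ => (fun z : ℂ => z ^ d + c)^[n] 0) c₀‖) ≤ √A := by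
    calc Real.pi / (2 * C) * (r * ‖deriv (fun c : ℂ => (fun z : ℂ => z ^ d + c)^[n] 0) c₀‖)
        ≤ Real.pi / (2 * C) * (2 / Real.pi * (C * √A)) := mul_le_mul_of_nonneg_left h9 (by positivity)
      _ = √A := by field_simp
  have h11 : (Real.pi / (2 * C) * (r * ‖deriv (fun c : ℂ => (fun z : ℂ => z ^ d + c)^[n] 0) c₀‖)) ^ 2 ≤
      √A ^ 2 := pow_le_pow_left₀ (by positivity) h10 2
  rw [Real.sq_sqrt ENNReal.toReal_nonneg, mul_pow] at h11
  exact h11

end Pool.Agent.Results.MP_70a088_an.QueerArea
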