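import Mathlib
import Pool.Agent.TH279.LF.FwdMain

/-!
# Slow growth of the derivatives at almost every point of an invariant full continuum

Let `K` be a full continuum in the plane and let `f` be a holomorphic map on a neighbourhood `V` of `K` which maps
`K` into itself (for example the filled Julia set of a polynomial-like map, if it is connected). At almost every
point `z` of `K` the orbits of the points of the disc of radius `exp (-n ^ β)` about `z` stay in `V` for `n` steps,
and the derivative of the `n`-th iterate at `z` has modulus at most `exp (n ^ β)`, for all large `n` and every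
`β > 1 / 2`. In particular this holds for polynomials of degree at least 2 with connected Julia set, and so at
almost every point of the support of every line field on such a Julia set.
-/

set_option autoImplicit false

open Set Filter Metric MeasureTheory

namespace Pool.Agent.Results.MP_70a088_an.SlowDerivatives

/-- **Slow derivatives almost everywhere.** -/
theorem result :
    (∀ (K V : Set ℂ) (f : ℂ → ℂ), IsCompact K → IsPreconnected K → IsConnected Kᶜ → IsOpen V → K ⊆ V →
      DifferentiableOn ℂ f V → (∀ z ∈ K, f z ∈ K) →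
      ∀ᵐ z ∂(volume.restrict K), ∀ β : ℝ, 1 / 2 < β → ∀ᶠ n : ℕ in atTop,
        (∀ w ∈ ball z (Real.exp (-(n : ℝ) ^ β)), ∀ k ≤ n, f^[k] w ∈ V) ∧
        ‖deriv (f^[n]) z‖ ≤ Real.exp ((n : ℝ) ^ β)) ∧
    (∀ p : Polynomial ℂ, 2 ≤ p.natDegree →
      IsPreconnected
        {z : ℂ | Bornology.IsBounded (Set.range fun k : ℕ => (fun z => p.eval z)^[k] z)} →
      ∃ C : ℝ, ∀ᵐ z ∂(volume.restrict
          {z : ℂ | Bornology.IsBounded (Set.range fun k : ℕ => (fun z => p.eval z)^[k] z)}),
        ∀ β : ℝ, 1 / 2 < β → ∀ᶠ n : ℕ in atTop,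
          (∀ w ∈ ball z (Real.exp (-(n : ℝ) ^ β)), ∀ k ≤ n, ‖(fun z => p.eval z)^[k] w‖ ≤ C) ∧
          ‖deriv ((fun z => p.eval z)^[n]) z‖ ≤ Real.exp ((n : ℝ) ^ β)) :=
  ⟨fun _ _ _ hK hKc hKcc hV hKV hf hinv =>
      Pool.Agent.TH279.LF.main_fwd hK hKc hKcc hV hKV hf hinv,
    fun p hp hc => Pool.Agent.TH279.LF.main p hp hc⟩

end Pool.Agent.Results.MP_70a088_an.SlowDerivatives
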